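import Pool.Agent.Q180.Walk.Trig

/-!
# Sign periods of the greedy planar walk are not `O(1/‖2α‖)`

For every `l ≥ 3` there is an irrational `α ∈ (1/6, 1/5)` and a starting point for which the sign
sequence of the greedy walk is eventually periodic with least period `20 l + 8`, while
`‖2α‖ > 1/3` stays bounded away from `0`.
-/

namespace Pool.Agent.Results.MP_c62c12_an.NoLinearBound

open Q180.Walk

/-- For every real `c` and all large `l` there are an irrational `α ∈ (1/6, 1/5)` and a starting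
point `w` such that the greedy walk is defined for all times, its sign sequence is eventually
periodic with least period `20 l + 8`, and this period exceeds `c / ‖2α‖`. -/
theorem result : ∀ c : ℝ, ∃ l₀ : ℕ, ∀ l : ℕ, l₀ ≤ l → ∃ α : ℝ, 1 / 6 < α ∧ α < 1 / 5 ∧
    Irrational α ∧ ∃ (w : ℂ) (Z : ℕ → ℂ) (ε : ℕ → ℤ), IsGreedyWalk α w Z ε ∧
      IsLeast (evPeriods ε) (20 * l + 8) ∧
      c / |2 * α - round (2 * α)| < ((20 * l + 8 : ℕ) : ℝ) := by
  intro c
  refine ⟨3 + ⌈3 * |c|⌉₊, fun l hl => ?_⟩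
  obtain ⟨α, h1, h2, h3, w, Z, ε, h4, h5⟩ := family l (by omega)
  refine ⟨α, h1, h2, h3, w, Z, ε, h4, h5, ?_⟩
  have hd : 1 / 3 < |2 * α - round (2 * α)| := by
    rcases le_or_gt (round (2 * α)) 0 with h | h
    · have : ((round (2 * α) : ℤ) : ℝ) ≤ 0 := by exact_mod_cast h
      rw [abs_of_pos (by linarith)]; linarith
    · have : (1 : ℝ) ≤ ((round (2 * α) : ℤ) : ℝ) := by exact_mod_cast h
      rw [abs_of_neg (by linarith)]; linarith
  have hc : 3 * |c| ≤ l := by
    have h6 := Nat.le_ceil (3 * |c|)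
    have h7 : ((3 + ⌈3 * |c|⌉₊ : ℕ) : ℝ) ≤ l := by exact_mod_cast hl
    push_cast at h7
    linarith
  have hc0 := abs_nonneg c
  rw [div_lt_iff₀ (by linarith)]
  have h8 : c ≤ |c| := le_abs_self c
  have hl0 : (0 : ℝ) ≤ l := Nat.cast_nonneg l
  push_cast
  nlinarith

end Pool.Agent.Results.MP_c62c12_an.NoLinearBound
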